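import Mathlib

/-!
Non-vanishing in Stepanov's method.
-/

set_option autoImplicit false

open Polynomial

namespace Pool.Agent.Helper67K9.ST

theorem desc {F : Type*} [Field F] {f : F[X]} (hf : Squarefree f) (hd : 1 ≤ f.natDegree) {c : F}
    (hc : c ≠ 0) : ∀ (n : ℕ) (r s : F[X]), s.natDegree ≤ n → f * r ^ 2 = C c * s ^ 2 → s = 0 := by
  have hf0 : f ≠ 0 := hf.ne_zero
  have hcC : (C c : F[X]) ≠ 0 := C_ne_zero.2 hc
  have hcu : IsUnit (C c : F[X]) := isUnit_C.2 (isUnit_iff_ne_zero.2 hc)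
  intro n
  induction n with
  | zero =>
    intro r s hs h
    by_contra hs0
    have h1 : f ∣ s ^ 2 := by
      have h2 : f ∣ C c * s ^ 2 := ⟨r ^ 2, h.symm⟩
      exact (hcu.dvd_mul_left).1 h2
    have h2 : f ∣ s := (hf.dvd_pow_iff_dvd two_ne_zero).1 h1
    have h3 := natDegree_le_of_dvd h2 hs0
    omega
  | succ n ih =>
    intro r s hs h
    by_contra hs0
    have h1 : f ∣ s ^ 2 := by
      have h2 : f ∣ C c * s ^ 2 := ⟨r ^ 2, h.symm⟩
      exact (hcu.dvd_mul_left).1 h2
    obtain ⟨s', rfl⟩ := (hf.dvd_pow_iff_dvd two_ne_zero).1 h1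
    have h2 : r ^ 2 = C c * (f * s' ^ 2) := by
      apply mul_left_cancel₀ hf0
      rw [h]
      ring
    have h3 : f ∣ r ^ 2 := ⟨C c * s' ^ 2, by rw [h2]; ring⟩
    obtain ⟨r', rfl⟩ := (hf.dvd_pow_iff_dvd two_ne_zero).1 h3
    have h4 : f * r' ^ 2 = C c * s' ^ 2 := by
      apply mul_left_cancel₀ hf0
      have h5 : f * (f * r' ^ 2) = (f * r') ^ 2 := by ring
      rw [h5, h2]
      ring
    have hs'0 : s' ≠ 0 := fun h => hs0 (by rw [h, mul_zero])
    have h5 := natDegree_mul hf0 hs'0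
    exact hs'0 (ih r' s' (by omega) h4)

theorem split {R : Type*} [CommRing R] {J j p : ℕ} (hj : j < J) (u : ℕ → R[X])
    (hu : ∀ i < j, u i = 0) :
    ∃ Q, ∑ i ∈ Finset.range J, u i * X ^ (i * p) = X ^ (j * p) * (u j + X ^ p * Q) := by
  obtain ⟨m, rfl⟩ : ∃ m, J = (j + 1) + m := ⟨J - (j + 1), by omega⟩
  refine ⟨∑ i ∈ Finset.range m, u (j + 1 + i) * X ^ (i * p), ?_⟩
  rw [Finset.sum_range_add, Finset.sum_range_succ,
    Finset.sum_eq_zero (fun i hi => by rw [hu i (Finset.mem_range.1 hi), zero_mul]), zero_add,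
    mul_add, Finset.mul_sum, Finset.mul_sum]
  congr 1
  · ring
  · refine Finset.sum_congr rfl fun i _ => ?_
    ring

theorem S1 {p : ℕ} [Fact p.Prime] (hp : p ≠ 2) {f : (ZMod p)[X]} (hf : Squarefree f)
    (hd : 1 ≤ f.natDegree) (h0 : f.eval 0 ≠ 0) {J A : ℕ} (hA : f.natDegree + 2 * A ≤ p + 1)
    (r s : ℕ → (ZMod p)[X]) (hr : ∀ j, (r j).degree < A) (hs : ∀ j, (s j).degree < A)
    (hR : ∑ j ∈ Finset.range J, (r j + s j * f ^ ((p - 1) / 2)) * X ^ (j * p) = 0) :
    ∀ j < J, r j = 0 ∧ s j = 0 := by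
  have hf0 : f ≠ 0 := hf.ne_zero
  have hpp : p.Prime := Fact.out
  have hodd : 2 * ((p - 1) / 2) = p - 1 := by
    have h1 := hpp.eq_two_or_odd
    omega
  intro j
  induction j using Nat.strong_induction_on with
  | _ j ih =>
    intro hj
    rcases Nat.eq_zero_or_pos A with hA0 | hA0
    · have h1 := hr j
      have h2 := hs j
      rw [hA0, Nat.cast_zero] at h1 h2
      exact ⟨degree_eq_bot.1 (Nat.WithBot.lt_zero_iff.1 h1), degree_eq_bot.1 (Nat.WithBot.lt_zero_iff.1 h2)⟩
    obtain ⟨R1, hR1⟩ := split (p := p) hj r (fun i hi => (ih i hi (by omega)).1)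
    obtain ⟨S1, hS1⟩ := split (p := p) hj s (fun i hi => (ih i hi (by omega)).2)
    set g := f ^ ((p - 1) / 2) with hg
    have hsum : (∑ i ∈ Finset.range J, r i * X ^ (i * p)) +
        g * ∑ i ∈ Finset.range J, s i * X ^ (i * p) = 0 := by
      rw [← hR, Finset.mul_sum, ← Finset.sum_add_distrib]
      refine Finset.sum_congr rfl fun i _ => ?_
      ring
    rw [hR1, hS1] at hsum
    have hab : (r j + X ^ p * R1) + g * (s j + X ^ p * S1) = 0 := by
      have h1 : (X ^ (j * p) : (ZMod p)[X]) ≠ 0 := pow_ne_zero _ X_ne_zero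
      apply mul_left_cancel₀ h1
      rw [mul_zero, ← hsum]
      ring
    have hsq : f * (r j + X ^ p * R1) ^ 2 = f ^ p * (s j + X ^ p * S1) ^ 2 := by
      have h1 : r j + X ^ p * R1 = -(g * (s j + X ^ p * S1)) := eq_neg_of_add_eq_zero_left hab
      have h2 : f ^ p = f * g ^ 2 := by
        rw [hg, ← pow_mul, mul_comm ((p - 1) / 2) 2, hodd, ← pow_succ']
        congr 1
        have := hpp.pos
        omega
      rw [h1, h2]
      ring
    have hfp : f ^ p = expand (ZMod p) p (divX f) * X ^ p + C (f.coeff 0) := by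
      rw [← ZMod.expand_card]
      conv_lhs => rw [← divX_mul_X_add f]
      rw [map_add, map_mul, expand_X, expand_C]
    have hdvd : (X ^ p : (ZMod p)[X]) ∣ f * r j ^ 2 - C (f.coeff 0) * s j ^ 2 := by
      rw [hfp] at hsq
      refine ⟨(expand (ZMod p) p (divX f)) * (s j + X ^ p * S1) ^ 2 +
        C (f.coeff 0) * (2 * s j * S1 + X ^ p * S1 ^ 2) - f * (2 * r j * R1 + X ^ p * R1 ^ 2), ?_⟩
      linear_combination hsq
    have hnr : (r j).natDegree ≤ A - 1 := by
      rcases eq_or_ne (r j) 0 with h | h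
      · rw [h, natDegree_zero]
        omega
      · have := (natDegree_lt_iff_degree_lt h).2 (hr j)
        omega
    have hns : (s j).natDegree ≤ A - 1 := by
      rcases eq_or_ne (s j) 0 with h | h
      · rw [h, natDegree_zero]
        omega
      · have := (natDegree_lt_iff_degree_lt h).2 (hs j)
        omega
    have hdeg : (f * r j ^ 2 - C (f.coeff 0) * s j ^ 2).degree < (X ^ p : (ZMod p)[X]).degree := by
      rw [degree_X_pow]
      refine lt_of_le_of_lt degree_le_natDegree ?_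
      have h1 := natDegree_sub_le (f * r j ^ 2) (C (f.coeff 0) * s j ^ 2)
      have h2 : (f * r j ^ 2).natDegree ≤ f.natDegree + 2 * (A - 1) := by
        refine natDegree_mul_le.trans ?_
        have := natDegree_pow_le (p := r j) (n := 2)
        nlinarith
      have h3 : (C (f.coeff 0) * s j ^ 2).natDegree ≤ 2 * (A - 1) := by
        refine (natDegree_C_mul_le _ _).trans ?_
        have := natDegree_pow_le (p := s j) (n := 2)
        nlinarith
      have h4 : (f * r j ^ 2 - C (f.coeff 0) * s j ^ 2).natDegree < p := by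
        refine lt_of_le_of_lt h1 ?_
        rw [max_lt_iff]
        constructor <;> omega
      exact_mod_cast h4
    have hz := eq_zero_of_dvd_of_degree_lt hdvd hdeg
    have hc : f.coeff 0 ≠ 0 := by
      rw [coeff_zero_eq_eval_zero]
      exact h0
    have hs0 : s j = 0 := desc hf hd hc _ (r j) (s j) le_rfl (sub_eq_zero.1 hz)
    refine ⟨?_, hs0⟩
    rw [hs0, sub_eq_zero] at hz
    have h5 : f * r j ^ 2 = 0 := by rw [hz]; simp
    rcases mul_eq_zero.1 h5 with h6 | h6
    · exact absurd h6 hf0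
    · exact pow_eq_zero_iff two_ne_zero |>.1 h6

end Pool.Agent.Helper67K9.ST
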